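import Pool.Agent.W622.ETC.Stm

set_option autoImplicit false

namespace Pool.Agent.W414.ELT

open Pool.Agent.W622.ETC Module

section
variable {V : Type} [AddCommGroup V] [Module (ZMod 2) V] [Finite V]

theorem exists_not_span {Z : DSub V} {p : Dl V} (h : 2 ≤ finrank (ZMod 2) Z) :
    ∃ g ∈ Z, g ≠ 0 ∧ g ≠ p := by
  by_contra hc
  push Not at hc
  have h1 : Z ≤ Submodule.span (ZMod 2) {p} := by
    intro g hg
    rw [span_one_mem]
    by_cases h0 : g = 0
    · exact Or.inl h0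
    · exact Or.inr (hc g hg h0)
  have h2 := Submodule.finrank_mono h1
  have h3 : finrank (ZMod 2) (Submodule.span (ZMod 2) {p}) ≤ 1 := by
    have := finrank_span_le_card (R := ZMod 2) ({p} : Set (Dl V))
    simpa using this
  omega

/-- for `p ≠ 0`, `g ∉ {0, p}` there is `a` with `p a = 1`, `g a = 0` -/
theorem exists_sep {p g : Dl V} (hp : p ≠ 0) (hg : g ≠ p) : ∃ a : V, p a = 1 ∧ g a = 0 := by
  have h : p ∉ Submodule.span (ZMod 2) {g} := by
    rw [span_one_mem]
    rintro (h | h)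
    · exact hp h
    · exact hg h.symm
  obtain ⟨a, ha, ha1⟩ := exists_coann h
  exact ⟨a, ha1, ha g (Submodule.mem_span_singleton_self g)⟩

omit [Finite V] in
theorem wd_mem_of {p g : Dl V} {X : DSub V} (hp : p ∈ X) (hg : g ∈ X) (a : V) : wd p g a ∈ X := by
  rw [wd_apply]
  exact X.add_mem (X.smul_mem _ hg) (X.smul_mem _ hp)

/-- the value set of the cone is in `X` when the members are -/
theorem cone_le {M' X : DSub V} {p : Dl V} (h3 : 2 ≤ finrank (ZMod 2) M')
    (hp0 : p ≠ 0) (h : ∀ g ∈ M', ∀ a, wd p g a ∈ X) : M' ≤ X := by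
  have key : ∀ g ∈ M', g ≠ 0 → g ≠ p → g ∈ X ∧ p ∈ X := by
    intro g hg hg0 hgp
    constructor
    · obtain ⟨a, ha1, ha2⟩ := exists_sep hp0 hgp
      have := h g hg a
      rwa [wd_apply, ha1, ha2, one_smul, zero_smul, add_zero] at this
    · obtain ⟨a, ha1, ha2⟩ := exists_sep hg0 hgp.symm
      have := h g hg a
      rwa [wd_apply, ha1, ha2, one_smul, zero_smul, zero_add] at this
  intro g hg
  by_cases hg0 : g = 0
  · rw [hg0]; exact X.zero_mem
  by_cases hgp : g = p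
  · obtain ⟨g', hg', h0, h1⟩ := exists_not_span (p := p) h3
    rw [hgp]
    exact (key g' hg' h0 h1).2
  · exact (key g hg hg0 hgp).1

theorem finrank_inf_ann {M : DSub V} {b : V} (hM : ¬ M ≤ ann b) (hb : b ≠ 0) :
    finrank (ZMod 2) (M ⊓ ann b : DSub V) + 1 = finrank (ZMod 2) M := by
  have h1 := Submodule.finrank_sup_add_finrank_inf_eq M (ann b : DSub V)
  have h2 := finrank_ann hb
  have h3 : (ann b : DSub V) < M ⊔ ann b := by
    refine lt_of_le_of_ne le_sup_right ?_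
    intro h
    exact hM (h ▸ le_sup_left)
  have h4 := Submodule.finrank_lt_finrank_of_lt h3
  have h5 : finrank (ZMod 2) (M ⊔ ann b : DSub V) ≤ finrank (ZMod 2) (Dl V) := Submodule.finrank_le _
  rw [finrank_Dl] at h5
  omega

theorem t_A3 (hNF : S_NF) (hES1 : S_ES1) (hBLK : S_BLK) (hA1 : S_A1) : S_A3 := by
  intro V _ _ _ A M p b s hMC hMax hC hb hpb hMb hs
  have hpZ : p ∈ M ⊓ ann b := ⟨hC.2.1, hpb⟩
  have hdim := finrank_inf_ann hMb hb
  have h2 : 2 ≤ finrank (ZMod 2) (M ⊓ ann b : DSub V) := by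
    have := hC.1
    omega
  have hAb : AltFam (res A (ann b)) := hMC.alt.res _
  have hwd : ∀ g ∈ M ⊓ ann b, wd p g ∈ res A (ann b) := by
    intro g hg
    exact ⟨hC.2.2.2 g hg.1, fun a => wd_mem_of hpZ.2 hg.2 a⟩
  obtain ⟨M', hM's, hZM'⟩ := hES1 V (res A (ann b)) s (M ⊓ ann b) p hAb hs hC.2.2.1 hpZ h2 hwd
  suffices h : M' ≤ M ⊓ ann b by
    rwa [le_antisymm hZM' h]
  rcases hs.2.2 M' hM's with ⟨ω, hω, hM'⟩ | ⟨p', h3, hp', hp'0, hw⟩
  · obtain ⟨g, hg, hg0, hgp⟩ := exists_not_span (p := p) h2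
    have h4 : sp (wd p g) ≤ M ⊓ ann b := sp_le.2 fun a => wd_mem_of hpZ hg a
    have h5 : wd p g ≠ 0 := by
      intro h0
      obtain ⟨a, ha1, ha2⟩ := exists_sep hC.2.2.1 hgp
      have := congrArg (fun ζ : Frm V => ζ a) h0
      simp only [wd_apply, ha1, ha2, one_smul, zero_smul, add_zero] at this
      exact hg0 this
    rcases hω.2.2 (wd p g) (hwd g hg) (by rw [← hM']; exact h4.trans hZM') with h6 | h6
    · exact absurd h6 h5
    · rw [hM', ← h6]; exact h4
  · have hM'b : M' ≤ ann b := cone_le (by omega) hp'0 fun g hg a => (hw g hg).2 a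
    by_cases hT : M ⊔ M' = ⊤
    · exfalso
      have h4 : M ⊓ M' = M ⊓ ann b :=
        le_antisymm (inf_le_inf_left M hM'b) (le_inf inf_le_left hZM')
      have h5 := Submodule.finrank_sup_add_finrank_inf_eq M M'
      rw [hT, h4, finrank_top, finrank_Dl] at h5
      have h6 := hA1 V A M' hMC ⟨p', h3, hp', hp'0, fun g hg => (hw g hg).1⟩
      omega
    · obtain ⟨b', hb', hle⟩ := exists_ann hT
      obtain ⟨-, s', hs'⟩ := hNF V (res A (ann b')) (hMC.el _ (ann_ne_top hb'))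
      have hMs' : M ∈ s' := hBLK V A M (ann b') s' hMC.alt (Or.inl hMax) (le_sup_left.trans hle) hs'
      obtain ⟨Z', hZ's, hM'Z⟩ := hES1 V (res A (ann b')) s' M' p' (hMC.alt.res _) hs' hp'0 hp'
        (by omega) (fun g hg => ⟨(hw g hg).1, fun a =>
          wd_mem_of ((le_sup_right.trans hle) hp') ((le_sup_right.trans hle) hg) a⟩)
      have hZ : Z' = M := by
        by_contra hne
        have h7 := hs'.1 hMs'
        have h8 : Z' ≤ sSup (s' \ {M}) := le_sSup ⟨hZ's, hne⟩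
        have h9 : p ∈ M ⊓ sSup (s' \ {M}) := ⟨hpZ.1, h8 (hM'Z (hZM' hpZ))⟩
        rw [h7.eq_bot, Submodule.mem_bot] at h9
        exact hC.2.2.1 h9
      exact le_inf (hZ ▸ hM'Z) hM'b

end

end Pool.Agent.W414.ELT
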